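import Pool.Agent.Lib.TPC.All
import Pool.Agent.Lib.HDE.All

open MeasureTheory ProbabilityTheory Filter Topology

namespace Pool.Agent.Results.MP_81a99a_pr.SecondScale

open Pool.Agent.Lib.MP_81a99a_pr

/-- the order of the second largest cluster -/
noncomputable def scale (d : ℕ) (V ε : ℝ) : ℝ :=
  max (ε⁻¹ ^ 2 * Real.log (ε ^ 3 * V))
    (ε ^ (1 - 5 * (d : ℝ) / (2 * (d - 1))) * Real.log V ^ ((d : ℝ) / (d - 1)))

/-- In every large dimension, throughout the barely supercritical regime `V^(-1/3) << ε << 1`,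
the second largest cluster of the torus has order `scale d V ε` with high probability. -/
theorem result : ∃ d₀ : ℕ, ∀ d : ℕ, d₀ ≤ d →
    ∃ a A : ℝ, 0 < a ∧ ∀ ε : ℕ → ℝ, (∀ n, 0 < ε n) → Tendsto ε atTop (𝓝 0) →
      Tendsto (fun n : ℕ => ε n * ((n : ℝ) ^ d) ^ (1 / 3 : ℝ)) atTop atTop →
      Tendsto (fun n : ℕ => (setBernoulli (torus d n).edgeSet
          (Set.projIcc 0 1 zero_le_one ((pc d : ℝ) * (1 + ε n)))).real
        {ω | a * scale d ((n : ℝ) ^ d) (ε n) ≤ kthLargest 2 ω ∧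
          (kthLargest 2 ω : ℝ) ≤ A * scale d ((n : ℝ) ^ d) (ε n)}) atTop (𝓝 1) := by
  obtain ⟨d₀, h⟩ := Pool.Agent.HDE.highDim_large
  exact ⟨max d₀ 9, fun d hd => Pool.Agent.TPC.All.a_THM d ((le_max_right _ _).trans hd)
    (h d ((le_max_left _ _).trans hd))⟩

end Pool.Agent.Results.MP_81a99a_pr.SecondScale
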