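import Pool.Agent.Lib.TP7.All

open MeasureTheory ProbabilityTheory Filter Topology

namespace Pool.Agent.Results.MP_81a99a_pr.SecondScaleAboveSix

open Pool.Agent.Lib.MP_81a99a_pr

/-- the critical two-point function of `ℤ^d` has order `‖x‖^(2-d)` (sup norm) -/
def TwoPoint (d : ℕ) : Prop :=
  ∃ c C : ℝ, 0 < c ∧ ∀ x : Fin d → ℤ, x ≠ 0 →
    c * ‖x‖ ^ (2 - (d : ℝ)) ≤ (setBernoulli (lattice d).edgeSet (pc d)).real {ω | x ∈ cluster ω 0} ∧
    (setBernoulli (lattice d).edgeSet (pc d)).real {ω | x ∈ cluster ω 0} ≤ C * ‖x‖ ^ (2 - (d : ℝ))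

/-- the order of the second largest cluster -/
noncomputable def scale (d : ℕ) (V ε : ℝ) : ℝ :=
  max (ε⁻¹ ^ 2 * Real.log (ε ^ 3 * V))
    (ε ^ (1 - 5 * (d : ℝ) / (2 * (d - 1))) * Real.log V ^ ((d : ℝ) / (d - 1)))

/-- In every dimension `d > 6` with the mean-field critical two-point function, throughout the
barely supercritical regime the second largest cluster of the torus has order `scale d V ε`. -/
theorem result (d : ℕ) (hd : 6 < d) (h : TwoPoint d) :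
    ∃ a A : ℝ, 0 < a ∧ ∀ ε : ℕ → ℝ, (∀ n, 0 < ε n) → Tendsto ε atTop (𝓝 0) →
      Tendsto (fun n : ℕ => ε n * ((n : ℝ) ^ d) ^ (1 / 3 : ℝ)) atTop atTop →
      Tendsto (fun n : ℕ => (setBernoulli (torus d n).edgeSet
          (Set.projIcc 0 1 zero_le_one ((pc d : ℝ) * (1 + ε n)))).real
        {ω | a * scale d ((n : ℝ) ^ d) (ε n) ≤ kthLargest 2 ω ∧
          (kthLargest 2 ω : ℝ) ≤ A * scale d ((n : ℝ) ^ d) (ε n)}) atTop (𝓝 1) :=
  Pool.Agent.TPC.S7.b_THM d hd h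

end Pool.Agent.Results.MP_81a99a_pr.SecondScaleAboveSix
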